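import Pool.Agent.Helper73.RF.GoalsA

/-!
# Project RF, packet EVS: evolution of the scalars under the Ricci flow
-/

set_option autoImplicit false

open Finset

namespace Pool.Agent.Helper74.RF

open Pool.Agent.Helper73.RF

/-! ### real identities -/

theorem real_trace (m : Fin 3 → Fin 3 → ℝ) (hm : ∀ i j, m i j = m j i) :
    ∑ i : Fin 3, (4 * (∑ j, m i j * m j i) - 2 * ((∑ k, m k k) * m i i)
      + ((∑ k, m k k) ^ 2 - ∑ k, ∑ l, m k l ^ 2)) = (∑ k, m k k) ^ 2 + ∑ k, ∑ l, m k l ^ 2 := by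
  simp only [Fin.sum_univ_three]
  rw [hm 1 0, hm 2 0, hm 2 1]
  ring

theorem real_q (m : Fin 3 → Fin 3 → ℝ) :
    ∑ i : Fin 3, ∑ j, (m i j - if i = j then (1 / 3 : ℝ) * (∑ k, m k k) else 0) ^ 2
      = (∑ k, ∑ l, m k l ^ 2) - (1 / 3 : ℝ) * (∑ k, m k k) ^ 2 := by
  simp only [Fin.sum_univ_three]
  simp only [Fin.isValue, ↓reduceIte, Fin.reduceEq]
  ring

theorem real_hopq (m : Fin 3 → Fin 3 → ℝ) (hm : ∀ i j, m i j = m j i)
    (g : ℝ) (G : ℝ) :
    (∑ i : Fin 3, ∑ j, 2 * (m i j * (4 * (∑ k, m i k * m k j) - 2 * ((∑ k, m k k) * m i j)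
        + if i = j then (∑ k, m k k) ^ 2 - ∑ k, ∑ l, m k l ^ 2 else 0))) - 2 * G
      - (1 / 3 : ℝ) * (2 * ((∑ k, m k k) * ((∑ k, m k k) ^ 2 + ∑ k, ∑ l, m k l ^ 2)) - 2 * g)
    = -(2 * (G - (1 / 3 : ℝ) * g))
      + (4 / 3 : ℝ) * ((∑ k, m k k) * ((∑ k, ∑ l, m k l ^ 2) - (1 / 3 : ℝ) * (∑ k, m k k) ^ 2))
      + 8 * (∑ i : Fin 3, ∑ j : Fin 3, ∑ k : Fin 3,
          (m i j - if i = j then (1 / 3 : ℝ) * (∑ k, m k k) else 0)
          * (m j k - if j = k then (1 / 3 : ℝ) * (∑ k, m k k) else 0)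
          * (m k i - if k = i then (1 / 3 : ℝ) * (∑ k, m k k) else 0)) := by
  simp only [Fin.sum_univ_three]
  simp only [Fin.isValue, ↓reduceIte, Fin.reduceEq]
  rw [hm 1 0, hm 2 0, hm 2 1]
  ring

/-! ### the packet -/

variable {T : ℝ}

theorem H_s (F : FBD T) (a : Fin 3) : F.H a F.s = ∑ i, F.H a (F.M i i) := by
  simp only [FBD.s, map_sum]

theorem H_M0 (F : FBD T) (a i j : Fin 3) :
    F.H a (F.M0 i j) = F.H a (F.M i j) - if i = j then (1 / 3 : ℝ) • F.H a F.s else 0 := by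
  unfold FBD.M0
  rw [map_sub]
  split_ifs
  · rw [Derivation.map_smul]
  · rw [map_zero]

theorem hop_zero (F : FBD T) : F.Hop 0 = 0 := by
  simp only [FBD.Hop, FBD.Lap, map_zero, Finset.sum_const_zero, sub_zero]

theorem hop_sum (F : FBD T) (hPrd : PrdStmt) {ι : Type} (s : Finset ι) (f : ι → F.B) :
    F.Hop (∑ i ∈ s, f i) = ∑ i ∈ s, F.Hop (f i) := by
  classical
  induction s using Finset.induction_on with
  | empty => simp only [Finset.sum_empty]; exact hop_zero F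
  | insert a s ha ih =>
    rw [Finset.sum_insert ha, Finset.sum_insert ha, (hPrd T F _ _).2.1, ih]

theorem hop_s (hEvm : EvmStmt) (hPrd : PrdStmt) (F : FBD T) (hF : F.Full) (hRF : F.IsRF) :
    F.Hop F.s = F.s ^ 2 + F.n2 := by
  have h1 : F.Hop F.s = ∑ i, F.Hop (F.M i i) := by
    unfold FBD.s
    exact hop_sum F hPrd _ _
  rw [h1]
  have h2 : ∀ i, F.Hop (F.M i i) = (4 : ℝ) • (∑ j, F.M i j * F.M j i)
      - (2 : ℝ) • (F.s * F.M i i) + (F.s ^ 2 - F.n2) := by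
    intro i
    rw [hEvm T F hF hRF i i, if_pos rfl]
  rw [Finset.sum_congr rfl (fun i _ => h2 i)]
  apply hF.toBase.ext
  intro z t
  have h3 := real_trace (fun i j => F.ev z t (F.M i j)) (fun i j => by
    simp only [hF.Msymm i j])
  simp only [map_sum, map_add, map_sub, map_smul, map_mul, map_pow, smul_eq_mul, FBD.n2, FBD.s]
    at h3 ⊢
  exact h3

theorem q_eq (F : FBD T) (hF : F.Full) : F.q = ∑ i, ∑ j, F.M0 i j ^ 2 := by
  apply hF.toBase.ext
  intro z t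
  have h3 := real_q (fun i j => F.ev z t (F.M i j))
  have h4 : ∀ i j, F.ev z t (F.M0 i j)
      = F.ev z t (F.M i j) - if i = j then (1 / 3 : ℝ) * (∑ k, F.ev z t (F.M k k)) else 0 := by
    intro i j
    unfold FBD.M0
    rw [map_sub]
    split_ifs
    · rw [map_smul, smul_eq_mul]
      simp only [FBD.s, map_sum]
    · rw [map_zero]
  simp only [map_sum, map_pow, h4]
  rw [h3]
  simp only [FBD.q, FBD.n2, FBD.s, map_sum, map_add, map_sub, map_smul, map_mul, map_pow,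
    smul_eq_mul]

theorem dM_eq (F : FBD T) (hF : F.Full) : F.dM = F.dM0 + (1 / 3 : ℝ) • F.gg F.s F.s := by
  apply hF.toBase.ext
  intro z t
  have h3 : ∀ c, ∑ i : Fin 3, ∑ j, (F.ev z t (F.H c (F.M i j))
      - if i = j then (1 / 3 : ℝ) * (∑ k, F.ev z t (F.H c (F.M k k))) else 0) ^ 2
      = (∑ k, ∑ l, (F.ev z t (F.H c (F.M k l))) ^ 2)
        - (1 / 3 : ℝ) * (∑ k, F.ev z t (F.H c (F.M k k))) ^ 2 :=
    fun c => real_q (fun i j => F.ev z t (F.H c (F.M i j)))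
  have h4 : ∀ c i j, F.ev z t (F.H c (F.M0 i j))
      = F.ev z t (F.H c (F.M i j))
        - if i = j then (1 / 3 : ℝ) * (∑ k, F.ev z t (F.H c (F.M k k))) else 0 := by
    intro c i j
    rw [H_M0, map_sub]
    split_ifs
    · rw [map_smul, smul_eq_mul, H_s]
      simp only [map_sum]
    · rw [map_zero]
  have h5 : F.ev z t F.dM0 = ∑ c, ((∑ k, ∑ l, (F.ev z t (F.H c (F.M k l))) ^ 2)
        - (1 / 3 : ℝ) * (∑ k, F.ev z t (F.H c (F.M k k))) ^ 2) := by
    simp only [FBD.dM0, map_sum, map_pow, h4, h3]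
  rw [map_add, h5, map_smul, smul_eq_mul]
  simp only [FBD.dM, FBD.gg, map_sum, map_pow, map_mul, H_s, Finset.sum_sub_distrib,
    ← Finset.mul_sum, ← pow_two]
  ring

theorem H_q (F : FBD T) (hF : F.Full) (a : Fin 3) :
    F.H a F.q = (2 : ℝ) • ∑ i, ∑ j, F.M0 i j * F.H a (F.M0 i j) := by
  rw [q_eq F hF]
  simp only [map_sum, pow_two, Derivation.leibniz, smul_eq_mul, Finset.smul_sum]
  refine Finset.sum_congr rfl fun i _ => Finset.sum_congr rfl fun j _ => ?_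
  rw [two_smul]

theorem H_n2 (F : FBD T) (a : Fin 3) :
    F.H a F.n2 = (2 : ℝ) • ∑ i, ∑ j, F.M i j * F.H a (F.M i j) := by
  unfold FBD.n2
  simp only [map_sum, pow_two, Derivation.leibniz, smul_eq_mul, Finset.smul_sum]
  refine Finset.sum_congr rfl fun i _ => Finset.sum_congr rfl fun j _ => ?_
  rw [two_smul]

theorem hop_n2 (hPrd : PrdStmt) (F : FBD T) :
    F.Hop F.n2 = ∑ i, ∑ j, ((2 : ℝ) • (F.M i j * F.Hop (F.M i j))
      - (2 : ℝ) • F.gg (F.M i j) (F.M i j)) := by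
  unfold FBD.n2
  rw [hop_sum F hPrd]
  refine Finset.sum_congr rfl fun i _ => ?_
  rw [hop_sum F hPrd]
  refine Finset.sum_congr rfl fun j _ => ?_
  exact (hPrd T F (F.M i j) 0).2.2.2.2

theorem sum_gg (F : FBD T) : ∑ i, ∑ j, F.gg (F.M i j) (F.M i j) = F.dM := by
  unfold FBD.gg FBD.dM
  have h1 : ∀ i : Fin 3, ∑ j : Fin 3, ∑ a : Fin 3, F.H a (F.M i j) * F.H a (F.M i j)
      = ∑ a : Fin 3, ∑ j : Fin 3, F.H a (F.M i j) ^ 2 := by
    intro i
    rw [Finset.sum_comm]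
    simp only [pow_two]
  rw [Finset.sum_congr rfl (fun i _ => h1 i), Finset.sum_comm]

theorem hop_q (hEvm : EvmStmt) (hPrd : PrdStmt) (F : FBD T) (hF : F.Full) (hRF : F.IsRF) :
    F.Hop F.q = -((2 : ℝ) • F.dM0) + (4 / 3 : ℝ) • (F.s * F.q) + (8 : ℝ) • F.c3 := by
  have h1 : F.Hop F.q = F.Hop F.n2 - (1 / 3 : ℝ) • F.Hop (F.s ^ 2) := by
    unfold FBD.q
    rw [(hPrd T F F.n2 ((1 / 3 : ℝ) • F.s ^ 2)).2.2.1, ((hPrd T F (F.s ^ 2) 0).2.2.2.1 _).1]
  have h2 : F.Hop (F.s ^ 2) = (2 : ℝ) • (F.s * (F.s ^ 2 + F.n2)) - (2 : ℝ) • F.gg F.s F.s := by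
    rw [(hPrd T F F.s 0).2.2.2.2, hop_s hEvm hPrd F hF hRF]
  have h3 : F.Hop F.n2 = (∑ i, ∑ j, (2 : ℝ) • (F.M i j * F.Hop (F.M i j)))
      - (2 : ℝ) • F.dM := by
    rw [hop_n2 hPrd F, ← sum_gg F]
    simp only [Finset.sum_sub_distrib, Finset.smul_sum]
  have h4 : F.dM0 = F.dM - (1 / 3 : ℝ) • F.gg F.s F.s := by
    rw [dM_eq F hF, add_sub_cancel_right]
  rw [h1, h2, h3, h4]
  simp only [hEvm T F hF hRF]
  apply hF.toBase.ext
  intro z t
  have h5 : ∀ i j, F.ev z t (F.M0 i j)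
      = F.ev z t (F.M i j) - if i = j then (1 / 3 : ℝ) * (∑ k, F.ev z t (F.M k k)) else 0 := by
    intro i j
    unfold FBD.M0
    rw [map_sub]
    split_ifs
    · rw [map_smul, smul_eq_mul]
      simp only [FBD.s, map_sum]
    · rw [map_zero]
  have h6 := real_hopq (fun i j => F.ev z t (F.M i j)) (fun i j => by
    simp only [hF.Msymm i j]) (F.ev z t (F.gg F.s F.s)) (F.ev z t F.dM)
  have h7 : ∀ i j : Fin 3, F.ev z t (if i = j then F.s ^ 2 - F.n2 else 0)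
      = if i = j then (∑ k, F.ev z t (F.M k k)) ^ 2 - ∑ k, ∑ l, F.ev z t (F.M k l) ^ 2
        else 0 := by
    intro i j
    split_ifs
    · simp only [FBD.s, FBD.n2, map_sub, map_pow, map_sum]
    · rw [map_zero]
  have h8 : F.ev z t F.s = ∑ k, F.ev z t (F.M k k) := by
    simp only [FBD.s, map_sum]
  have h9 : F.ev z t F.n2 = ∑ k, ∑ l, F.ev z t (F.M k l) ^ 2 := by
    simp only [FBD.n2, map_sum, map_pow]
  have h10 : F.ev z t F.q = (∑ k, ∑ l, F.ev z t (F.M k l) ^ 2)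
      - (1 / 3 : ℝ) * (∑ k, F.ev z t (F.M k k)) ^ 2 := by
    simp only [FBD.q, map_sub, map_smul, smul_eq_mul, map_pow, h8, h9]
  have h11 : F.ev z t F.c3 = ∑ i : Fin 3, ∑ j : Fin 3, ∑ k : Fin 3,
          (F.ev z t (F.M i j) - if i = j then (1 / 3 : ℝ) * (∑ k, F.ev z t (F.M k k)) else 0)
          * (F.ev z t (F.M j k) - if j = k then (1 / 3 : ℝ) * (∑ k, F.ev z t (F.M k k)) else 0)
          * (F.ev z t (F.M k i) - if k = i then (1 / 3 : ℝ) * (∑ k, F.ev z t (F.M k k)) else 0)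
          := by
    simp only [FBD.c3, map_sum, map_mul, h5]
  simp only [map_sub, map_add, map_neg, map_smul, smul_eq_mul, map_sum, map_mul, map_pow, h7, h8,
    h9, h10, h11]
  exact h6

theorem hop_gg (hPrd : PrdStmt) (F : FBD T) (f : F.B) (g : Fin 3 → F.B)
    (hg : ∀ a, F.Hop (F.H a f) = g a) :
    F.Hop (F.gg f f) = (2 : ℝ) • (∑ a, F.H a f * g a) - (2 : ℝ) • F.h2 f := by
  have h1 : F.gg f f = ∑ a, F.H a f ^ 2 := by
    simp only [FBD.gg, pow_two]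
  have h2 : F.h2 f = ∑ a, F.gg (F.H a f) (F.H a f) := by
    unfold FBD.h2 FBD.gg
    rw [Finset.sum_comm]
    simp only [pow_two]
  rw [h1, hop_sum F hPrd, h2, Finset.smul_sum, Finset.smul_sum, ← Finset.sum_sub_distrib]
  refine Finset.sum_congr rfl fun a _ => ?_
  rw [(hPrd T F (F.H a f) 0).2.2.2.2, hg a]

/-- PACKET EVS -/
theorem evs (hEvm : EvmStmt) (hPrd : PrdStmt) (hVin : VinStmt) (hBoc : BocStmt) : EvsStmt := by
  intro T F hF hRF
  refine ⟨hop_s hEvm hPrd F hF hRF, hop_q hEvm hPrd F hF hRF, q_eq F hF, dM_eq F hF, ?_,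
    H_q F hF, ?_⟩
  · have hs : F.VI F.s := (hVin T F hF).1
    have h1 : ∀ a, F.Hop (F.H a F.s) = (2 : ℝ) • (F.s * F.H a F.s)
        + (2 : ℝ) • ∑ i, ∑ j, F.M i j * F.H a (F.M i j) := by
      intro a
      rw [(hBoc T F hF F.s hs).2.1 hRF a, hop_s hEvm hPrd F hF hRF, map_add, H_n2, pow_two,
        Derivation.leibniz, smul_eq_mul, two_smul ℝ (F.s * F.H a F.s)]
    rw [hop_gg hPrd F F.s _ h1]
    have h2 : (2 : ℝ) • (∑ a, F.H a F.s * ((2 : ℝ) • (F.s * F.H a F.s)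
        + (2 : ℝ) • ∑ i, ∑ j, F.M i j * F.H a (F.M i j)))
        = (4 : ℝ) • (F.s * F.gg F.s F.s)
        + (4 : ℝ) • (∑ a, ∑ i, ∑ j, F.H a F.s * F.M i j * F.H a (F.M i j)) := by
      apply hF.toBase.ext
      intro z t
      simp only [map_sum, map_add, map_smul, map_mul, smul_eq_mul, FBD.gg, mul_add,
        Finset.sum_add_distrib, Finset.mul_sum]
      congr 1
      · refine Finset.sum_congr rfl fun a _ => ?_
        ring
      · refine Finset.sum_congr rfl fun a _ => Finset.sum_congr rfl fun i _ =>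
          Finset.sum_congr rfl fun j _ => ?_
        ring
    rw [h2]
  · intro u hu h0
    constructor
    · have h1 : ∀ a, F.Hop (F.H a u) = 0 := by
        intro a
        rw [(hBoc T F hF u hu).2.1 hRF a, h0, map_zero]
      rw [hop_gg hPrd F u _ h1]
      simp only [mul_zero, Finset.sum_const_zero, smul_zero, zero_sub]
    · rw [(hBoc T F hF u hu).2.2 hRF, h0]
      have h2 : F.Lap 0 = 0 := by
        simp only [FBD.Lap, map_zero, Finset.sum_const_zero]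
      rw [h2, zero_add]

end Pool.Agent.Helper74.RF
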